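import Pool.Agent.T9h72.KU.Spec

/-!
# Project KU, piece ZA: the second derivative is positive on an initial interval
-/

set_option autoImplicit false

namespace Pool.Agent.T9h58.KU

open Set Pool.Agent.R190.KR Pool.Agent.T9h72.KU

/-- `v / (l - a) + u / (l - b)` -/
noncomputable def ee (l x : ℝ) : ℝ := x / (l - A x) + (1 - x) / (l - A (1 - x))

theorem A_lt_of {x y : ℝ} (hxy : x < y) (hy : y < 1) : A x < A y := by
  unfold A
  have := Real.log_lt_log (x := 1 - y) (y := 1 - x) (by linarith) (by linarith)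
  linarith

theorem hasDerivAt_ee {l x : ℝ} (h0 : 0 < x) (h1 : x < 1) (ha : A x < l) (hb : A (1 - x) < l) :
    HasDerivAt (ee l) (1 / (l - A x) - 1 / (l - A (1 - x)) + x / (1 - x) / (l - A x) ^ 2
      - (1 - x) / x / (l - A (1 - x)) ^ 2) x := by
  have h2 : l - A x ≠ 0 := by intro h; linarith
  have h3 : l - A (1 - x) ≠ 0 := by intro h; linarith
  have hx : 1 - x ≠ 0 := by intro h; linarith
  have h := ((hasDerivAt_id x).div ((hasDerivAt_A h1).const_sub l) h2).add
    (((hasDerivAt_id x).const_sub 1).div ((hasDerivAt_A' h0).const_sub l) h3)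
  refine h.congr_deriv ?_
  simp only [id_eq]
  field_simp
  ring

theorem ee_mono {l y : ℝ} (hy : y < 1) (hl : A y < l) : StrictMonoOn (ee l) (Icc (1 / 2) y) := by
  have hA : ∀ x, x ≤ y → A x < l := by
    intro x hx
    rcases hx.lt_or_eq with h | h
    · exact (A_lt_of h hy).trans hl
    · rw [h]; exact hl
  have hB : ∀ x, 1 / 2 ≤ x → x ≤ y → A (1 - x) < l := by
    intro x h2 hx
    exact (A_le_of h2 (by linarith)).trans_lt (hA x hx)
  apply strictMonoOn_of_deriv_pos (convex_Icc _ _)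
  · intro x hx
    exact (hasDerivAt_ee (by linarith [hx.1]) (by linarith [hx.2]) (hA x hx.2)
      (hB x hx.1 hx.2)).continuousAt.continuousWithinAt
  · intro x hx
    rw [interior_Icc] at hx
    have h0 : 0 < x := by linarith [hx.1]
    have h1 : 0 < 1 - x := by linarith [hx.2]
    rw [(hasDerivAt_ee h0 (by linarith [hx.2]) (hA x hx.2.le) (hB x hx.1.le hx.2.le)).deriv]
    have hp : 0 < l - A x := by linarith [hA x hx.2.le]
    have hpq : l - A x ≤ l - A (1 - x) := by
      linarith [A_le_of (x := x) hx.1.le (by linarith [hx.2])]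
    have hq : 0 < l - A (1 - x) := by linarith
    have e1 : 1 / (l - A (1 - x)) ≤ 1 / (l - A x) := one_div_le_one_div_of_le hp hpq
    have e2 : (1 - x) / x < x / (1 - x) := by
      rw [div_lt_div_iff₀ h0 h1]
      nlinarith [hx.1]
    have e3 : (1 - x) / x / (l - A (1 - x)) ^ 2 ≤ (1 - x) / x / (l - A x) ^ 2 := by
      apply div_le_div_of_nonneg_left (by positivity) (by positivity)
      exact pow_le_pow_left₀ hp.le hpq 2
    have e4 : (1 - x) / x / (l - A x) ^ 2 < x / (1 - x) / (l - A x) ^ 2 :=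
      div_lt_div_of_pos_right e2 (by positivity)
    linarith

noncomputable def LL (α β κ l1 l2 z : ℝ) : ℝ :=
  α * Real.log z - β * z + Real.log (l1 - z) + κ * Real.log (l2 - z)

theorem hasDerivAt_LL {α β κ l1 l2 a : ℝ} (ha : 0 < a) (h1 : a < l1) (h2 : a < l2) :
    HasDerivAt (LL α β κ l1 l2) (α / a - β - 1 / (l1 - a) - κ / (l2 - a)) a := by
  have e1 := (Real.hasDerivAt_log ha.ne').const_mul α
  have e2 := (hasDerivAt_id a).const_mul β
  have e3 := ((hasDerivAt_id a).const_sub l1).log (by simp only [id_eq]; intro h; linarith)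
  have e4 := (((hasDerivAt_id a).const_sub l2).log
    (by simp only [id_eq]; intro h; linarith)).const_mul κ
  have h := ((e1.sub e2).add e3).add e4
  refine h.congr_deriv ?_
  simp only [id_eq]
  ring

noncomputable def TT (α β κ l1 l2 z : ℝ) : ℝ :=
  LL α β κ l1 l2 (A z) - LL α β κ l1 l2 (A (1 - z))

theorem hasDerivAt_TT {α β κ l1 l2 z : ℝ} (hz : 0 < z) (hz1 : z < 1) (h1 : A z < l1)
    (h2 : A z < l2) (h3 : A (1 - z) < l1) (h4 : A (1 - z) < l2) :
    HasDerivAt (TT α β κ l1 l2)
      ((α * w z - β - ee l1 z - κ * ee l2 z) / (z * (1 - z))) z := by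
  have hA := A_pos hz hz1
  have hB := A_pos (x := 1 - z) (by linarith) (by linarith)
  have h := ((hasDerivAt_LL (α := α) (β := β) (κ := κ) hA h1 h2).comp z (hasDerivAt_A hz1)).sub
    ((hasDerivAt_LL (α := α) (β := β) (κ := κ) hB h3 h4).comp z (hasDerivAt_A' hz))
  refine h.congr_deriv ?_
  have hx : 1 - z ≠ 0 := by intro h; linarith
  have g1 : l1 - A z ≠ 0 := by intro h; linarith
  have g2 : l2 - A z ≠ 0 := by intro h; linarith
  have g3 : l1 - A (1 - z) ≠ 0 := by intro h; linarith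
  have g4 : l2 - A (1 - z) ≠ 0 := by intro h; linarith
  unfold w ee
  field_simp
  ring

theorem core {α β κ l1 l2 : ℝ} (hα : 0 ≤ α) (hκ : 0 ≤ κ) {x y : ℝ} (hx : 1 / 2 < x)
    (hxy : x < y) (hy : y < 1) (h1 : A y < l1) (h2 : A y < l2)
    (hT : 0 ≤ TT α β κ l1 l2 y) : 0 < TT α β κ l1 l2 x := by
  have hA : ∀ z, z ≤ y → A z ≤ A y := by
    intro z hz
    rcases hz.lt_or_eq with h | h
    · exact (A_lt_of h hy).le
    · rw [h]
  have hder : ∀ z, 1 / 2 ≤ z → z ≤ y → HasDerivAt (TT α β κ l1 l2)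
      ((α * w z - β - ee l1 z - κ * ee l2 z) / (z * (1 - z))) z := by
    intro z hz hzy
    have hAz := hA z hzy
    have hBz := A_le_of hz (by linarith : z < 1)
    exact hasDerivAt_TT (by linarith) (by linarith) (by linarith) (by linarith) (by linarith)
      (by linarith)
  have hhalf : TT α β κ l1 l2 (1 / 2) = 0 := by
    unfold TT
    norm_num
  by_contra hcon
  push Not at hcon
  obtain ⟨s, hs, hs'⟩ := exists_hasDerivAt_eq_slope (TT α β κ l1 l2)
    (fun z => (α * w z - β - ee l1 z - κ * ee l2 z) / (z * (1 - z))) hx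
    (fun z hz => (hder z hz.1 (hz.2.trans hxy.le)).continuousAt.continuousWithinAt)
    (fun z hz => hder z hz.1.le (hz.2.le.trans hxy.le))
  obtain ⟨t, ht, ht'⟩ := exists_hasDerivAt_eq_slope (TT α β κ l1 l2)
    (fun z => (α * w z - β - ee l1 z - κ * ee l2 z) / (z * (1 - z))) hxy
    (fun z hz => (hder z (hx.le.trans hz.1) hz.2).continuousAt.continuousWithinAt)
    (fun z hz => hder z (hx.le.trans hz.1.le) hz.2.le)
  rw [hhalf, sub_zero] at hs'
  have hs0 : 0 < s * (1 - s) := mul_pos (by linarith [hs.1]) (by linarith [hs.2])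
  have ht0 : 0 < t * (1 - t) := mul_pos (by linarith [ht.1]) (by linarith [ht.2])
  have hD1 : α * w s - β - ee l1 s - κ * ee l2 s ≤ 0 := by
    by_contra h
    push Not at h
    have h5 := div_pos h hs0
    rw [hs'] at h5
    have h6 : TT α β κ l1 l2 x / (x - 1 / 2) ≤ 0 :=
      div_nonpos_of_nonpos_of_nonneg hcon (by linarith)
    linarith
  have hD2 : 0 ≤ α * w t - β - ee l1 t - κ * ee l2 t := by
    by_contra h
    push Not at h
    have h5 := div_neg_of_neg_of_pos h ht0
    rw [ht'] at h5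
    have h6 : 0 ≤ (TT α β κ l1 l2 y - TT α β κ l1 l2 x) / (y - x) :=
      div_nonneg (by linarith) (by linarith)
    linarith
  have hst : s < t := hs.2.trans ht.1
  have hms : s ∈ Icc (1 / 2 : ℝ) y := ⟨hs.1.le, (hs.2.trans hxy).le⟩
  have hmt : t ∈ Icc (1 / 2 : ℝ) y := ⟨(hx.trans ht.1).le, ht.2.le⟩
  have g1 := ee_mono hy h1 hms hmt hst
  have g2 := ee_mono hy h2 hms hmt hst
  have g3 := w_anti ⟨hms.1, by linarith [hms.2]⟩ ⟨hmt.1, by linarith [hmt.2]⟩ hst.le
  have g4 := mul_le_mul_of_nonneg_left g3 hα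
  have g5 := mul_le_mul_of_nonneg_left g2.le hκ
  linarith

noncomputable def PP (n m : ℕ) (a : ℝ) : ℝ :=
  m * (m - 1) * a ^ 2 - n * (2 * m - 1) * a + n * (n - 1)

theorem q_eq (n m : ℕ) {x : ℝ} (h0 : 0 < x) (h1 : x < 1) :
    psi n m x ^ 2 + psi' n m x = PP n m (A x) / ((A x) ^ 2 * (1 - x) ^ 2) := by
  have hA := A_pos h0 h1
  have hx : 0 < 1 - x := by linarith
  unfold psi psi' PP
  field_simp
  ring

theorem log_eq (n m : ℕ) {x : ℝ} (h0 : 0 < x) (h1 : x < 1) (hP : 0 < PP n m (A x)) :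
    Real.log (G n m x * (psi n m x ^ 2 + psi' n m x)) =
      ((n : ℝ) - 2) * Real.log (A x) - ((m : ℝ) - 2) * A x + Real.log (PP n m (A x)) := by
  have hA := A_pos h0 h1
  have hx : 0 < 1 - x := by linarith
  have e : Real.log (1 - x) = -A x := by unfold A; ring
  rw [q_eq n m h0 h1]
  unfold G
  rw [Real.log_mul (by positivity) (by positivity), Real.log_mul (by positivity) (by positivity),
    Real.log_div (by positivity) (by positivity), Real.log_mul (by positivity) (by positivity),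
    Real.log_pow, Real.log_pow, Real.log_pow, Real.log_pow, e]
  push_cast
  ring

theorem S2_pos_iff (n m : ℕ) {x : ℝ} (h0 : 0 < x) (h1 : x < 1) (hP : 0 < PP n m (A x))
    (hP' : 0 < PP n m (A (1 - x))) : 0 < S2 n m x ↔
      ((n : ℝ) - 2) * Real.log (A (1 - x)) - ((m : ℝ) - 2) * A (1 - x) +
        Real.log (PP n m (A (1 - x))) <
      ((n : ℝ) - 2) * Real.log (A x) - ((m : ℝ) - 2) * A x + Real.log (PP n m (A x)) := by
  have hA := A_pos h0 h1
  have hB := A_pos (x := 1 - x) (by linarith) (by linarith)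
  have hG := G_pos n m h0 h1
  have hG' := G_pos n m (x := 1 - x) (by linarith) (by linarith)
  have hx : 0 < 1 - x := by linarith
  have q1 : 0 < psi n m x ^ 2 + psi' n m x := by rw [q_eq n m h0 h1]; positivity
  have q2 : 0 < psi n m (1 - x) ^ 2 + psi' n m (1 - x) := by
    rw [q_eq n m (by linarith) (by linarith)]
    have : (1 - (1 - x)) ≠ 0 := by intro h; linarith
    positivity
  rw [← log_eq n m h0 h1 hP, ← log_eq n m (x := 1 - x) (by linarith) (by linarith) hP',
    Real.log_lt_log_iff (by positivity) (by positivity)]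
  unfold S2
  exact sub_pos

theorem S2_nonneg_iff (n m : ℕ) {x : ℝ} (h0 : 0 < x) (h1 : x < 1) (hP : 0 < PP n m (A x))
    (hP' : 0 < PP n m (A (1 - x))) : 0 ≤ S2 n m x ↔
      ((n : ℝ) - 2) * Real.log (A (1 - x)) - ((m : ℝ) - 2) * A (1 - x) +
        Real.log (PP n m (A (1 - x))) ≤
      ((n : ℝ) - 2) * Real.log (A x) - ((m : ℝ) - 2) * A x + Real.log (PP n m (A x)) := by
  have hA := A_pos h0 h1
  have hB := A_pos (x := 1 - x) (by linarith) (by linarith)
  have hG := G_pos n m h0 h1
  have hG' := G_pos n m (x := 1 - x) (by linarith) (by linarith)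
  have hx : 0 < 1 - x := by linarith
  have q1 : 0 < psi n m x ^ 2 + psi' n m x := by rw [q_eq n m h0 h1]; positivity
  have q2 : 0 < psi n m (1 - x) ^ 2 + psi' n m (1 - x) := by
    rw [q_eq n m (by linarith) (by linarith)]
    have : (1 - (1 - x)) ≠ 0 := by intro h; linarith
    positivity
  rw [← log_eq n m h0 h1 hP, ← log_eq n m (x := 1 - x) (by linarith) (by linarith) hP',
    Real.log_le_log_iff (by positivity) (by positivity)]
  unfold S2
  exact sub_nonneg

/-- the factorisation of the quadratic polynomial below its smaller root -/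
theorem factor (n m : ℕ) (hn : 1 ≤ n) (hm : 1 ≤ m) {a0 : ℝ} (ha0 : 0 < a0)
    (h1 : m * a0 < n) (h2 : 0 < PP n m a0) :
    2 ≤ n ∧ ∃ c l1 l2 κ : ℝ, 0 < c ∧ 0 ≤ κ ∧ a0 < l1 ∧ a0 < l2 ∧
      ∀ a, a ≤ a0 → 0 < PP n m a ∧
        Real.log (PP n m a) = Real.log c + Real.log (l1 - a) + κ * Real.log (l2 - a) := by
  have hn' : (1 : ℝ) ≤ n := by exact_mod_cast hn
  have hm' : (1 : ℝ) ≤ m := by exact_mod_cast hm
  have hn2 : 2 ≤ n := by
    by_contra hcon
    have : n = 1 := by omega
    subst this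
    unfold PP at h2
    push_cast at h1 h2
    nlinarith [mul_pos ha0 ha0, mul_nonneg (by linarith : (0:ℝ) ≤ m - 1) ha0.le,
      mul_pos (by linarith : (0:ℝ) < m) ha0]
  refine ⟨hn2, ?_⟩
  have hn2' : (2 : ℝ) ≤ n := by exact_mod_cast hn2
  rcases hm.eq_or_lt with hm1 | hm1
  · subst hm1
    have e : ∀ a, PP n 1 a = n * ((n - 1) - a) := by
      intro a; unfold PP; push_cast; ring
    have ha : a0 < n - 1 := by
      rw [e] at h2
      have := (mul_pos_iff_of_pos_left (by linarith : (0:ℝ) < n)).1 h2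
      linarith
    refine ⟨n, n - 1, n - 1, 0, by linarith, le_rfl, ha, ha, ?_⟩
    intro a haa
    have h3 : 0 < (n : ℝ) - 1 - a := by linarith
    rw [e]
    refine ⟨by positivity, ?_⟩
    rw [Real.log_mul (by positivity) h3.ne']
    ring
  · have hm2 : (2 : ℝ) ≤ m := by exact_mod_cast hm1
    set c : ℝ := m * (m - 1) with hc
    have hc0 : 0 < c := mul_pos (by linarith) (by linarith)
    set s : ℝ := Real.sqrt (n ^ 2 + 4 * n * c) with hs
    have hs2 : s ^ 2 = n ^ 2 + 4 * n * c := Real.sq_sqrt (by positivity)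
    have hs0 : 0 ≤ s := Real.sqrt_nonneg _
    set l1 : ℝ := (n * (2 * m - 1) - s) / (2 * c) with hl1
    set l2 : ℝ := (n * (2 * m - 1) + s) / (2 * c) with hl2
    have e : ∀ a, PP n m a = c * (l1 - a) * (l2 - a) := by
      intro a
      have h5 : c * (l1 * l2) = n * (n - 1) := by
        rw [hl1, hl2]
        field_simp
        rw [show (n * (2 * m - 1) - s) * (n * (2 * m - 1) + s) =
          (n * (2 * m - 1)) ^ 2 - s ^ 2 by ring, hs2, hc]
        ring
      have h6 : c * (l1 + l2) = n * (2 * m - 1) := by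
        rw [hl1, hl2]
        field_simp
        ring
      unfold PP
      rw [← hc]
      linear_combination (-1 : ℝ) * h5 + a * h6
    have hal2 : a0 < l2 := by
      rw [hl2, lt_div_iff₀ (by positivity)]
      have : a0 * (2 * c) = 2 * (m - 1) * (m * a0) := by rw [hc]; ring
      rw [this]
      have h7 : 2 * ((m : ℝ) - 1) * (m * a0) ≤ 2 * (m - 1) * n :=
        mul_le_mul_of_nonneg_left h1.le (by linarith)
      nlinarith
    have hal1 : a0 < l1 := by
      rw [e] at h2
      have h7 := (mul_pos_iff_of_pos_right (by linarith : 0 < l2 - a0)).1 h2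
      have h8 := (mul_pos_iff_of_pos_left hc0).1 h7
      linarith
    refine ⟨c, l1, l2, 1, hc0, zero_le_one, hal1, hal2, ?_⟩
    intro a haa
    have h3 : 0 < l1 - a := by linarith
    have h4 : 0 < l2 - a := by linarith
    rw [e]
    refine ⟨by positivity, ?_⟩
    rw [Real.log_mul (by positivity) h4.ne', Real.log_mul hc0.ne' h3.ne']
    ring

theorem za : S_ZA := by
  intro n m hn hm x y hx hxy hy h1 h2 h3
  have hy0 : 0 < y := by linarith
  have hx0 : 0 < x := by linarith
  have hx1 : x < 1 := by linarith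
  have hAy := A_pos hy0 hy
  have hu : 0 < 1 - y := by linarith
  have hP : 0 < PP n m (A y) := by
    rw [q_eq n m hy0 hy] at h2
    by_contra hcon
    push Not at hcon
    have := div_nonpos_of_nonpos_of_nonneg hcon
      (by positivity : 0 ≤ (A y) ^ 2 * (1 - y) ^ 2)
    linarith
  have hma : m * A y < n := by
    unfold psi at h1
    have h5 : 0 < (n : ℝ) / A y - m := by
      by_contra hcon
      push Not at hcon
      have := div_nonpos_of_nonpos_of_nonneg hcon hu.le
      linarith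
    have h6 : (m : ℝ) < n / A y := by linarith
    rwa [lt_div_iff₀ hAy] at h6
  obtain ⟨hn2, c, l1, l2, κ, hc, hκ, hl1, hl2, hf⟩ := factor n m hn hm hAy hma hP
  have hn2' : (2 : ℝ) ≤ n := by exact_mod_cast hn2
  have hAxy : A x ≤ A y := (A_lt_of hxy hy).le
  have hBy : A (1 - y) ≤ A y := A_le_of (by linarith) hy
  have hBx : A (1 - x) ≤ A y := (A_le_of hx.le hx1).trans hAxy
  obtain ⟨p1, f1⟩ := hf (A y) le_rfl
  obtain ⟨p2, f2⟩ := hf (A (1 - y)) hBy
  obtain ⟨p3, f3⟩ := hf (A x) hAxy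
  obtain ⟨p4, f4⟩ := hf (A (1 - x)) hBx
  rw [S2_nonneg_iff n m hy0 hy p1 p2, f1, f2] at h3
  rw [S2_pos_iff n m hx0 hx1 p3 p4, f3, f4]
  have hT : 0 ≤ TT ((n : ℝ) - 2) ((m : ℝ) - 2) κ l1 l2 y := by
    unfold TT LL
    linarith
  have := core (by linarith) hκ hx hxy hy hl1 hl2 hT
  unfold TT LL at this
  linarith

end Pool.Agent.T9h58.KU
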